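import Pool.Agent.Mg.F9808b6.Gc145b8

/-! All levels are controlled by the second level. -/

open Finset

set_option linter.unusedSectionVars false

namespace Pool.Agent.MP_9808b6_an.Lin

/-- bound for the level `k` of functions of degree at most `m` -/
def Hy (m k : ℕ) (γ : ℝ) : Prop := ∀ (ι : Type) [Fintype ι] [DecidableEq ι] (a : Finset ι → ℝ)
  (M : ℝ), Adm a m M → N2 a k ≤ (γ * M) ^ 2

theorem Hy.mono {m k : ℕ} {γ γ' : ℝ} (h : Hy m k γ) (h0 : 0 ≤ γ) (h1 : γ ≤ γ') : Hy m k γ' := by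
  intro ι _ _ a M ha
  have := ha.nonneg
  exact (h ι a M ha).trans (by gcongr)

theorem am4 {x y z t w : ℝ} (hx : 0 ≤ x) (hy : 0 ≤ y) (hz : 0 ≤ z) (ht : 0 ≤ t)
    (h : w ^ 4 = x * y * z * t) : 4 * w ≤ x + y + z + t := by
  have h1 : 4 * (x * y) ≤ (x + y) ^ 2 := by nlinarith [sq_nonneg (x - y)]
  have h2 : 4 * (z * t) ≤ (z + t) ^ 2 := by nlinarith [sq_nonneg (z - t)]
  have h3 : 4 * ((x + y) * (z + t)) ≤ (x + y + z + t) ^ 2 := by nlinarith [sq_nonneg (x + y - z - t)]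
  have h4 := mul_le_mul h1 h2 (by positivity) (by positivity)
  have h5 := pow_le_pow_left₀ (by positivity) h3 2
  refine le_of_pow_le_pow_left₀ (n := 4) (by norm_num) (by positivity) ?_
  nlinarith

theorem lw {α : Type} (I J K : Finset α) (p q r : α → α → ℝ) {s : ℝ} (hs : 0 < s)
    (h1 : ∑ j ∈ J, ∑ k ∈ K, p j k ^ 2 ≤ s ^ 2) (h2 : ∑ i ∈ I, ∑ k ∈ K, q i k ^ 2 ≤ s ^ 2)
    (h3 : ∑ i ∈ I, ∑ j ∈ J, r i j ^ 2 ≤ s ^ 2) :
    ∑ i ∈ I, ∑ j ∈ J, ∑ k ∈ K, p j k * q i k * r i j ≤ s ^ 3 := by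
  have a : ∀ i j, ∑ k ∈ K, p j k * q i k * r i j ≤
      s / 2 * r i j ^ 2 + 1 / (2 * s) * ((∑ k ∈ K, q i k ^ 2) * ∑ k ∈ K, p j k ^ 2) := by
    intro i j
    rw [← sum_mul]
    have b := sum_mul_sq_le_sq_mul_sq K (p j) (q i)
    generalize ∑ k ∈ K, p j k * q i k = X at *
    have c : X * r i j ≤ s / 2 * r i j ^ 2 + 1 / (2 * s) * X ^ 2 := by
      have : s / 2 * r i j ^ 2 + 1 / (2 * s) * X ^ 2 - X * r i j = (s * r i j - X) ^ 2 / (2 * s) := by
        field_simp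
        ring
      have : 0 ≤ (s * r i j - X) ^ 2 / (2 * s) := by positivity
      linarith
    refine c.trans ?_
    rw [mul_comm (∑ k ∈ K, q i k ^ 2)]
    gcongr
  refine (sum_le_sum fun i _ => sum_le_sum fun j _ => a i j).trans ?_
  simp only [sum_add_distrib, ← mul_sum, ← sum_mul]
  have b : (∑ i ∈ I, ∑ k ∈ K, q i k ^ 2) * ∑ j ∈ J, ∑ k ∈ K, p j k ^ 2 ≤ s ^ 2 * s ^ 2 :=
    mul_le_mul h2 h1 (by positivity) (by positivity)
  calc _ ≤ s / 2 * s ^ 2 + 1 / (2 * s) * (s ^ 2 * s ^ 2) := by gcongr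
    _ = s ^ 3 := by field_simp; ring

theorem cube_root {x : ℝ} (hx : 0 ≤ x) :
    0 ≤ x ^ (1 / 3 : ℝ) ∧ (x ^ (1 / 3 : ℝ)) ^ 3 = x ∧ (x ^ (1 / 3 : ℝ)) ^ 2 = x ^ rr 2 := by
  refine ⟨by positivity, ?_, ?_⟩
  · rw [← Real.rpow_natCast, ← Real.rpow_mul hx]; norm_num
  · rw [← Real.rpow_natCast, ← Real.rpow_mul hx, rr]; norm_num

/-- three-block mixed norm inequality -/
theorem three {α : Type} (I J K : Finset α) (u : α → α → α → ℝ) (hu : ∀ i j k, 0 ≤ u i j k)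
    {s : ℝ} (hs : 0 < s) (h1 : ∑ j ∈ J, ∑ k ∈ K, (∑ i ∈ I, u i j k) ^ rr 2 ≤ s ^ 8)
    (h2 : ∑ i ∈ I, ∑ k ∈ K, (∑ j ∈ J, u i j k) ^ rr 2 ≤ s ^ 8)
    (h3 : ∑ i ∈ I, ∑ j ∈ J, (∑ k ∈ K, u i j k) ^ rr 2 ≤ s ^ 8) :
    ∑ i ∈ I, ∑ j ∈ J, ∑ k ∈ K, u i j k ^ rr 3 ≤ s ^ 9 := by
  obtain ⟨p, hp⟩ : ∃ p : α → α → ℝ, ∀ j k, 0 ≤ p j k ∧ p j k ^ 3 = ∑ i ∈ I, u i j k ∧
      p j k ^ 2 = (∑ i ∈ I, u i j k) ^ rr 2 :=
    ⟨_, fun j k => cube_root (sum_nonneg fun i _ => hu i j k)⟩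
  obtain ⟨q, hq⟩ : ∃ q : α → α → ℝ, ∀ i k, 0 ≤ q i k ∧ q i k ^ 3 = ∑ j ∈ J, u i j k ∧
      q i k ^ 2 = (∑ j ∈ J, u i j k) ^ rr 2 :=
    ⟨_, fun i k => cube_root (sum_nonneg fun j _ => hu i j k)⟩
  obtain ⟨r, hr⟩ : ∃ r : α → α → ℝ, ∀ i j, 0 ≤ r i j ∧ r i j ^ 3 = ∑ k ∈ K, u i j k ∧
      r i j ^ 2 = (∑ k ∈ K, u i j k) ^ rr 2 :=
    ⟨_, fun i j => cube_root (sum_nonneg fun k _ => hu i j k)⟩
  simp only [← (hp _ _).2.2] at h1
  simp only [← (hq _ _).2.2] at h2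
  simp only [← (hr _ _).2.2] at h3
  have pt : ∀ i ∈ I, ∀ j ∈ J, ∀ k ∈ K, u i j k ^ rr 3 ≤ s / 4 * (u i j k / p j k) +
      s / 4 * (u i j k / q i k) + s / 4 * (u i j k / r i j) +
      1 / (4 * s ^ 3) * (p j k * q i k * r i j) := by
    intro i hi j hj k hk
    have u0 := hu i j k
    have p0 := (hp j k).1
    have q0 := (hq i k).1
    have r0 := (hr i j).1
    rcases u0.eq_or_lt with e | e
    · rw [← e, Real.zero_rpow (rr_pos (by norm_num)).ne']
      positivity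
    have pos : ∀ x y : ℝ, 0 ≤ x → x ^ 3 = y → u i j k ≤ y → x ≠ 0 := fun x y _ h h' h0 => by
      rw [h0] at h
      linarith
    have p1 := pos _ _ p0 (hp j k).2.1
      (single_le_sum (f := fun i => u i j k) (fun i _ => hu i j k) hi)
    have q1 := pos _ _ q0 (hq i k).2.1
      (single_le_sum (f := fun j => u i j k) (fun j _ => hu i j k) hj)
    have r1 := pos _ _ r0 (hr i j).2.1
      (single_le_sum (f := fun k => u i j k) (fun k _ => hu i j k) hk)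
    have := am4 (x := s * (u i j k / p j k)) (y := s * (u i j k / q i k))
      (z := s * (u i j k / r i j)) (t := 1 / s ^ 3 * (p j k * q i k * r i j))
      (w := u i j k ^ rr 3) (by positivity) (by positivity) (by positivity) (by positivity) (by
        rw [← Real.rpow_natCast, ← Real.rpow_mul u0, show rr 3 * ((4 : ℕ) : ℝ) = (3 : ℕ) by
          rw [rr]; norm_num, Real.rpow_natCast]
        field_simp)
    have e2 : 1 / (4 * s ^ 3) = 1 / 4 * (1 / s ^ 3) := by field_simp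
    rw [e2]
    linarith
  have dv : ∀ x : ℝ, x ^ 3 / x = x ^ 2 := fun x => by
    rcases eq_or_ne x 0 with rfl | h
    · simp
    · field_simp
  have e1 : ∑ i ∈ I, ∑ j ∈ J, ∑ k ∈ K, u i j k / p j k = ∑ j ∈ J, ∑ k ∈ K, p j k ^ 2 := by
    rw [sum_comm]
    refine sum_congr rfl fun j _ => ?_
    rw [sum_comm]
    exact sum_congr rfl fun k _ => by rw [← sum_div, ← (hp j k).2.1, dv]
  have e2 : ∑ i ∈ I, ∑ j ∈ J, ∑ k ∈ K, u i j k / q i k = ∑ i ∈ I, ∑ k ∈ K, q i k ^ 2 := by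
    refine sum_congr rfl fun i _ => ?_
    rw [sum_comm]
    exact sum_congr rfl fun k _ => by rw [← sum_div, ← (hq i k).2.1, dv]
  have e3 : ∑ i ∈ I, ∑ j ∈ J, ∑ k ∈ K, u i j k / r i j = ∑ i ∈ I, ∑ j ∈ J, r i j ^ 2 :=
    sum_congr rfl fun i _ => sum_congr rfl fun j _ => by rw [← sum_div, ← (hr i j).2.1, dv]
  have e4 := lw I J K p q r (s := s ^ 4) (by positivity) (by rwa [← pow_mul]) (by rwa [← pow_mul])
    (by rwa [← pow_mul])
  refine (sum_le_sum fun i hi => sum_le_sum fun j hj => sum_le_sum fun k hk =>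
    pt i hi j hj k hk).trans ?_
  simp only [sum_add_distrib, ← mul_sum]
  rw [e1, e2, e3]
  calc _ ≤ s / 4 * s ^ 8 + s / 4 * s ^ 8 + s / 4 * s ^ 8 + 1 / (4 * s ^ 3) * (s ^ 4) ^ 3 := by gcongr
    _ = s ^ 9 := by field_simp; ring

variable {ι : Type} [Fintype ι] [DecidableEq ι]

theorem sum_one (A : Finset ι) (G : Finset ι → ℝ) :
    ∑ S ∈ powersetCard 1 A, G S = ∑ i ∈ A, G {i} := by
  rw [powersetCard_one, sum_map]; rfl

theorem sum_pair_le {J K L : Finset ι} (hJK : Disjoint J K) (hJ : J ⊆ L) (hK : K ⊆ L) (j l : ℕ)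
    (G : Finset ι → ℝ) (hG : ∀ S, 0 ≤ G S) :
    ∑ S ∈ powersetCard j J, ∑ T ∈ powersetCard l K, G (S ∪ T) ≤
      ∑ U ∈ powersetCard (j + l) L, G U := by
  have sub : K ⊆ Jᶜ := fun x hx => mem_compl.2 fun h => disjoint_left.1 hJK h hx
  rw [← sum_product', ← sum_image (f := G) (g := fun p : Finset ι × Finset ι => p.1 ∪ p.2)]
  · refine sum_le_sum_of_subset_of_nonneg (fun U hU => ?_) fun U _ _ => hG U
    obtain ⟨p, hp, rfl⟩ := mem_image.1 hU
    obtain ⟨p1, p2⟩ := mem_product.1 hp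
    rw [mem_powersetCard] at p1 p2 ⊢
    exact ⟨union_subset (p1.1.trans hJ) (p2.1.trans hK), by
      rw [card_union_of_disjoint (disj_of p1.1 (p2.1.trans sub)), p1.2, p2.2]⟩
  · intro p hp p' hp' h
    obtain ⟨p1, p2⟩ := mem_product.1 hp
    obtain ⟨q1, q2⟩ := mem_product.1 hp'
    rw [mem_powersetCard] at p1 p2 q1 q2
    simp only at h
    have sub' : J ⊆ Kᶜ := fun x hx => mem_compl.2 fun h => disjoint_left.1 hJK hx h
    refine Prod.ext ?_ ?_
    · rw [← union_inter_of p1.1 (p2.1.trans sub), h, union_inter_of q1.1 (q2.1.trans sub)]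
    · rw [← union_inter_of p2.1 (p1.1.trans sub'), union_comm, h, union_comm,
        union_inter_of q2.1 (q1.1.trans sub')]

theorem Hy.xx {m j : ℕ} {γ M : ℝ} (h : Hy m j γ) (hj : 2 ≤ j) {a : Finset ι → ℝ} (ha : Adm a m M)
    (A : Finset ι) (l : ℕ) : XX a A j l ≤ 3 ^ l * (γ * M) ^ 2 := by
  have h1 := hyper_X a A hj {l}
  rw [sum_singleton] at h1
  have h2 := h1.trans (av_le fun x => h ι _ M (ha.res A x))
  have h3 : 1 ≤ 3 * (2 * rr j - 1) := by
    have : (2 : ℝ) ≤ j := by exact_mod_cast hj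
    rw [two_rr, ← mul_div_assoc, le_div_iff₀ (by positivity)]; linarith
  have h4 := XX_nonneg a A j l
  calc XX a A j l ≤ (3 * (2 * rr j - 1)) ^ l * XX a A j l :=
        le_mul_of_one_le_left h4 (one_le_pow₀ h3)
    _ = 3 ^ l * ((2 * rr j - 1) ^ l * XX a A j l) := by rw [mul_pow]; ring
    _ ≤ _ := by gcongr

theorem mix_le {a : Finset ι → ℝ} {z : ℝ} (h : ∀ A, XX a A 2 1 ≤ z) {X Y Z : Finset ι}
    (hXY : Disjoint X Y) (hXZ : Disjoint X Z) (hYZ : Disjoint Y Z) :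
    ∑ T ∈ powersetCard 1 Y, ∑ R ∈ powersetCard 1 Z,
      (∑ S ∈ powersetCard 1 X, a (T ∪ R ∪ S) ^ 2) ^ rr 2 ≤ z ^ rr 2 := by
  have hr := rr_pos (k := 2) (by norm_num)
  refine (sum_pair_le (L := Xᶜ) hYZ (fun x hx => mem_compl.2 fun h => disjoint_left.1 hXY h hx)
    (fun x hx => mem_compl.2 fun h => disjoint_left.1 hXZ h hx) 1 1
    (fun U => (∑ S ∈ powersetCard 1 X, a (U ∪ S) ^ 2) ^ rr 2) fun U => by positivity).trans ?_
  have := Real.rpow_le_rpow (XX_nonneg _ _ _ _) (h Xᶜ) hr.le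
  rwa [XX, Ph_rpow hr fun _ _ => sum_nonneg fun _ _ => sq_nonneg _, compl_compl] at this

theorem pc_inter (k : ℕ) (B C : Finset ι) :
    powersetCard k (B ∩ C) = (powersetCard k B).filter (· ⊆ C) := by
  ext S
  simp only [mem_powersetCard, mem_filter, subset_inter_iff]
  tauto

theorem level_three {a : Finset ι → ℝ} {z : ℝ} (hz : 0 < z) (h : ∀ A, XX a A 2 1 ≤ z) :
    N2 a 3 ≤ 256 * z := by
  have hr := rr_pos (k := 3) (by norm_num)
  obtain ⟨s, hs, s8, s9⟩ : ∃ s : ℝ, 0 < s ∧ s ^ 8 = z ^ rr 2 ∧ s ^ 9 = z ^ rr 3 := by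
    refine ⟨z ^ (1 / 12 : ℝ), by positivity, ?_, ?_⟩ <;>
      rw [← Real.rpow_natCast, ← Real.rpow_mul hz.le, rr] <;> norm_num
  have k1 := split_avg 3 {1} (by simp) ((1 / 2 : ℝ) ^ 3)
    (fun S hS => by rw [← hS]; exact prob_single S (by omega))
    (fun S => (a S ^ 2) ^ rr 3) (fun S => by positivity)
  have k2 : ∀ A : Finset ι, ∑ i ∈ ({1} : Finset ℕ), ∑ S ∈ powersetCard i A,
      ∑ T ∈ powersetCard (3 - i) Aᶜ, (a (S ∪ T) ^ 2) ^ rr 3 ≤ 4 * s ^ 9 := by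
    intro A
    let G : Finset ι → ℝ := fun U =>
      if U ⊆ Aᶜ then ∑ S ∈ powersetCard 1 A, (a (S ∪ U) ^ 2) ^ rr 3 else 0
    have G0 : ∀ U, 0 ≤ G U := fun U => by
      simp only [G]
      split_ifs
      · positivity
      · exact le_rfl
    have k3 := split_avg 2 {1} (by simp) ((1 / 2 : ℝ) ^ 2)
      (fun S hS => by rw [← hS]; exact prob_single S (by omega)) G G0
    have k4 : ∀ B : Finset ι, ∑ i ∈ ({1} : Finset ℕ), ∑ T ∈ powersetCard i B,
        ∑ R ∈ powersetCard (2 - i) Bᶜ, G (T ∪ R) ≤ s ^ 9 := by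
      intro B
      have d1 : Disjoint A (B ∩ Aᶜ) := disjoint_compl_right.mono_right inter_subset_right
      have d2 : Disjoint A (Bᶜ ∩ Aᶜ) := disjoint_compl_right.mono_right inter_subset_right
      have d3 : Disjoint (B ∩ Aᶜ) (Bᶜ ∩ Aᶜ) :=
        disjoint_compl_right.mono inter_subset_left inter_subset_left
      have t := three (powersetCard 1 (B ∩ Aᶜ)) (powersetCard 1 (Bᶜ ∩ Aᶜ)) (powersetCard 1 A)
        (fun T R S => a (S ∪ (T ∪ R)) ^ 2) (fun _ _ _ => sq_nonneg _) hs ?_ ?_ ?_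
      · rw [sum_singleton]
        refine le_trans (le_of_eq ?_) t
        rw [pc_inter, pc_inter, sum_filter]
        refine sum_congr rfl fun T _ => ?_
        simp only [G, union_subset_iff, sum_filter]
        by_cases hT : T ⊆ Aᶜ <;> simp [hT]
      · rw [s8]
        refine le_trans (le_of_eq ?_) (mix_le h d3 d1.symm d2.symm)
        refine sum_congr rfl fun R _ => sum_congr rfl fun S _ => ?_
        congr 1
        exact sum_congr rfl fun T _ => by congr 2; ac_rfl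
      · rw [s8]
        refine le_trans (le_of_eq ?_) (mix_le h d3.symm d2.symm d1.symm)
        refine sum_congr rfl fun T _ => sum_congr rfl fun S _ => ?_
        congr 1
        exact sum_congr rfl fun R _ => by congr 2; ac_rfl
      · rw [s8]
        refine le_trans (le_of_eq ?_) (mix_le h d1 d2 d3)
        refine sum_congr rfl fun T _ => sum_congr rfl fun R _ => ?_
        congr 1
        exact sum_congr rfl fun S _ => by congr 2; ac_rfl
    have k5 := k3.trans (av_le k4)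
    have k6 : ∑ S ∈ powersetCard 1 A, ∑ T ∈ powersetCard 2 Aᶜ, (a (S ∪ T) ^ 2) ^ rr 3 =
        ∑ U ∈ powersetCard 2 univ, G U := by
      rw [sum_comm, ← univ_inter Aᶜ, pc_inter, sum_filter]
    rw [sum_singleton, k6]
    linarith
  have k7 := k1.trans (av_le k2)
  apply le_of_rpow_le hr (sum_rpow_nonneg fun _ _ => sq_nonneg _) (by positivity)
  have e : (256 : ℝ) ^ rr 3 = 64 := by
    rw [show (256 : ℝ) = 4 ^ (4 : ℝ) by norm_num, ← Real.rpow_mul (by norm_num), rr]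
    norm_num
  rw [Real.mul_rpow (by norm_num) hz.le, e, ← s9]
  have : 0 < s ^ 9 := by positivity
  linarith

theorem Hy.three {m : ℕ} {γ : ℝ} (h : Hy m 2 γ) : Hy m 3 (28 * γ) := by
  intro ι _ _ a M ha
  refine le_of_forall_pos_le_add fun ε hε => ?_
  have := level_three (a := a) (z := 3 * (γ * M) ^ 2 + ε / 256) (by positivity) fun A => by
    have := h.xx le_rfl ha A 1
    linarith
  nlinarith [sq_nonneg (γ * M)]

theorem Hy.lift {m : ℕ} {γ : ℝ} (h : Hy m 2 γ) (h0 : 0 ≤ γ) (k : ℕ) (hk : 2 ≤ k) :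
    Hy m k (42 ^ k * γ) := by
  induction k using Nat.strong_induction_on with
  | _ k ih =>
    by_cases h2 : k = 2
    · subst h2
      exact h.mono h0 (by linarith)
    by_cases h3 : k = 3
    · subst h3
      exact h.three.mono (by positivity) (by linarith)
    obtain ⟨j, l, rfl, j2, jl, l3⟩ : ∃ j l, k = j + l ∧ 2 ≤ j ∧ j ≤ l ∧ j + l ≤ 3 * j :=
      ⟨k / 2, k - k / 2, by omega, by omega, by omega, by omega⟩
    intro ι _ _ a M ha
    have hM := ha.nonneg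
    have t := N2_le_single a (j := j) (l := l) (by omega) (by omega)
      (U := 3 ^ (j + l) * (42 ^ l * γ * M) ^ 2) (V := 3 ^ (j + l) * (42 ^ l * γ * M) ^ 2)
      (fun A => ((ih j (by omega) j2).xx j2 ha A l).trans (by gcongr <;> norm_num))
      (fun A => ((ih l (by omega) (by omega)).xx (by omega) ha A j).trans (by gcongr <;> norm_num))
    rw [← Real.rpow_add' (by positivity) (by norm_num), add_sub_cancel, Real.rpow_one] at t
    refine t.trans ?_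
    have e : (12 : ℝ) ^ (j + l) ≤ (42 ^ j) ^ 2 := by
      calc (12 : ℝ) ^ (j + l) ≤ 12 ^ (3 * j) := pow_le_pow_right₀ (by norm_num) l3
        _ = (12 ^ 3) ^ j := pow_mul _ _ _
        _ ≤ (42 ^ 2) ^ j := by gcongr; norm_num
        _ = _ := by rw [← pow_mul, ← pow_mul, mul_comm]
    calc _ = (12 : ℝ) ^ (j + l) * (42 ^ l * γ * M) ^ 2 := by
          rw [← mul_assoc, ← mul_pow]; norm_num
      _ ≤ (42 ^ j) ^ 2 * (42 ^ l * γ * M) ^ 2 := by gcongr
      _ = _ := by rw [pow_add]; ring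

end Pool.Agent.MP_9808b6_an.Lin
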