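import Pool.Agent.MP_9808b6_an.Lin.A

/-! The second level is linear in the degree. -/

open Finset

set_option linter.unusedSectionVars false

namespace Pool.Agent.MP_9808b6_an.Lin

theorem norm_prod_le {α : Type} (B : Finset α) (r : α → ℝ) (h : ∑ j ∈ B, r j ^ 2 ≤ 1) :
    ‖∏ j ∈ B, (1 + Complex.I * r j)‖ ≤ 2 := by
  refine le_of_pow_le_pow_left₀ (n := 2) (by norm_num) (by norm_num) ?_
  rw [norm_prod, ← prod_pow]
  calc _ ≤ ∏ j ∈ B, Real.exp (r j ^ 2) := by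
        refine prod_le_prod (fun _ _ => sq_nonneg _) fun j _ => ?_
        rw [Complex.sq_norm, Complex.normSq_apply]
        simp only [Complex.add_re, Complex.one_re, Complex.mul_re, Complex.I_re, Complex.ofReal_re,
          Complex.I_im, Complex.ofReal_im, Complex.add_im, Complex.one_im, Complex.mul_im]
        nlinarith [Real.add_one_le_exp (r j ^ 2)]
    _ ≤ Real.exp 1 := by rw [← Real.exp_sum]; exact Real.exp_le_exp.2 h
    _ ≤ _ := by linarith [Real.exp_one_lt_d9]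

theorem prod_expand {α : Type} [DecidableEq α] (B : Finset α) (r : α → ℝ) :
    ∏ j ∈ B, (1 + Complex.I * r j) =
      ∑ T ∈ B.powerset, Complex.I ^ T.card * ((∏ j ∈ T, r j : ℝ) : ℂ) := by
  rw [prod_one_add]
  exact sum_congr rfl fun T _ => by rw [prod_mul_distrib, prod_const, Complex.ofReal_prod]

theorem esym_le {α : Type} [DecidableEq α] (B : Finset α) (v : α → ℝ) (hv : ∀ j, 0 ≤ v j) (k : ℕ) :
    ∑ T ∈ powersetCard k B, ∏ j ∈ T, v j ≤ (∑ j ∈ B, v j) ^ k := by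
  induction B using Finset.induction_on generalizing k with
  | empty => cases k <;> simp [powersetCard_eq_empty.2]
  | insert i B hi ih =>
    cases k with
    | zero => simp
    | succ k =>
      have s0 : 0 ≤ ∑ j ∈ B, v j := sum_nonneg fun j _ => hv j
      have nm : ∀ T ∈ powersetCard k B, i ∉ T := fun T hT h => hi ((mem_powersetCard.1 hT).1 h)
      rw [powersetCard_succ_insert hi, sum_union, sum_image, sum_insert hi]
      · have e : ∑ T ∈ powersetCard k B, ∏ j ∈ insert i T, v j =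
            v i * ∑ T ∈ powersetCard k B, ∏ j ∈ T, v j := by
          rw [mul_sum]
          exact sum_congr rfl fun T hT => prod_insert (nm T hT)
        have b : (∑ j ∈ B, v j) ^ k ≤ (v i + ∑ j ∈ B, v j) ^ k :=
          pow_le_pow_left₀ s0 (by linarith [hv i]) k
        have c := ih k.succ
        have d := mul_le_mul_of_nonneg_left ((ih k).trans b) (hv i)
        have f := mul_le_mul_of_nonneg_right b s0
        rw [e, pow_succ] at *
        nlinarith
      · intro S hS T hT h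
        rw [← erase_insert (nm S hS), h, erase_insert (nm T hT)]
      · refine disjoint_left.2 fun S hS hS' => ?_
        obtain ⟨T, -, rfl⟩ := mem_image.1 hS'
        exact hi ((mem_powersetCard.1 hS).1 (mem_insert_self i T))

theorem decomp {α : Type} (A B : Finset α) (b : α → α → ℝ) {Λ : ℝ}
    (hr : ∀ u : α → α → ℝ, (∀ i ∈ A, ∑ j ∈ B, u i j ^ 2 ≤ 1) → ∑ i ∈ A, ∑ j ∈ B, u i j ^ 4 ≤ 1 →
      ∑ i ∈ A, ∑ j ∈ B, b i j * u i j ≤ Λ)
    (hc : ∀ u : α → α → ℝ, (∀ j ∈ B, ∑ i ∈ A, u i j ^ 2 ≤ 1) → ∑ i ∈ A, ∑ j ∈ B, u i j ^ 4 ≤ 1 →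
      ∑ i ∈ A, ∑ j ∈ B, b i j * u i j ≤ Λ) :
    ∑ i ∈ A, ∑ j ∈ B, (b i j ^ 2) ^ rr 2 ≤ ((2 * Λ) ^ 2) ^ rr 2 := by
  classical
  have rt : ∀ x : ℝ, ∃ c : ℝ, c ^ 3 = x := fun x => by
    rcases le_total 0 x with h | h
    · exact ⟨_, (cube_root h).2.1⟩
    · exact ⟨-(-x) ^ (1 / 3 : ℝ), by rw [neg_pow, (cube_root (neg_nonneg.2 h)).2.1]; ring⟩
  have p23 : ∀ x : ℝ, ((x ^ 3) ^ 2) ^ rr 2 = x ^ 4 := fun x => by
    rw [show (x ^ 3) ^ 2 = (x ^ 2) ^ ((3 : ℕ) : ℝ) by rw [Real.rpow_natCast]; ring,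
      ← Real.rpow_mul (sq_nonneg x), show ((3 : ℕ) : ℝ) * rr 2 = (2 : ℕ) by rw [rr]; norm_num,
      Real.rpow_natCast]
    ring
  choose c hc3 using fun i j => rt (b i j)
  simp only [← hc3, p23] at hr hc ⊢
  have c4 : ∀ i j, 0 ≤ c i j ^ 4 := fun i j => by positivity
  obtain ⟨φ, φ0, hφ⟩ : ∃ φ : ℝ, 0 ≤ φ ∧ φ ^ 4 = ∑ i ∈ A, ∑ j ∈ B, c i j ^ 4 := by
    refine ⟨√(√(∑ i ∈ A, ∑ j ∈ B, c i j ^ 4)), Real.sqrt_nonneg _, ?_⟩
    rw [show (4 : ℕ) = 2 * 2 from rfl, pow_mul, Real.sq_sqrt (Real.sqrt_nonneg _),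
      Real.sq_sqrt (sum_nonneg fun i _ => sum_nonneg fun j _ => c4 i j)]
  rw [← hφ]
  rcases φ0.eq_or_lt with e | e
  · rw [← e, zero_pow (by norm_num)]
    positivity
  let P : α → α → Prop := fun i j => ∑ j' ∈ B, c i j' ^ 4 ≤ ∑ i' ∈ A, c i' j ^ 4
  have key : ∀ (E X : Finset α) (w g : α → ℝ), E ⊆ X → (∀ x ∈ X, 0 ≤ g x) →
      (∀ x ∈ E, ∑ y ∈ X, w y ^ 4 ≤ g x) → ∑ x ∈ X, g x ≤ φ ^ 4 →
      ∑ x ∈ E, (w x / φ) ^ 2 ≤ 1 := by
    intro E X w g hE g0 h1 h2
    simp only [div_pow]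
    rw [← sum_div, div_le_one (by positivity)]
    refine le_of_pow_le_pow_left₀ (n := 2) (by norm_num) (by positivity) ?_
    calc (∑ x ∈ E, w x ^ 2) ^ 2 ≤ E.card * ∑ x ∈ E, (w x ^ 2) ^ 2 := sq_sum_le_card_mul_sum_sq
      _ ≤ E.card * ∑ y ∈ X, w y ^ 4 := by
          refine mul_le_mul_of_nonneg_left ?_ (Nat.cast_nonneg _)
          simp only [← pow_mul]
          exact sum_le_sum_of_subset_of_nonneg hE fun y _ _ => (by positivity : 0 ≤ w y ^ 4)
      _ ≤ ∑ x ∈ E, g x := by rw [← nsmul_eq_mul, ← sum_const]; exact sum_le_sum h1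
      _ ≤ φ ^ 4 := (sum_le_sum_of_subset_of_nonneg hE fun x hx _ => g0 x hx).trans h2
      _ = _ := by ring
  have four : ∀ (Q : α → α → Prop) [∀ i j, Decidable (Q i j)], ∑ i ∈ A, ∑ j ∈ B, (if Q i j then c i j / φ else 0) ^ 4 ≤ 1 := by
    intro Q _
    calc _ ≤ ∑ i ∈ A, ∑ j ∈ B, c i j ^ 4 / φ ^ 4 := by
          refine sum_le_sum fun i _ => sum_le_sum fun j _ => ?_
          split_ifs
          · rw [div_pow]
          · rw [zero_pow (by norm_num)]; positivity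
      _ = 1 := by simp only [← sum_div]; rw [← hφ, div_self (by positivity)]
  have r1 := hr (fun i j => if P i j then c i j / φ else 0) (fun i _ => by
    simp only [ite_pow, zero_pow two_ne_zero]
    rw [← sum_filter]
    exact key _ B (c i) (fun j => ∑ i' ∈ A, c i' j ^ 4) (filter_subset _ _)
      (fun j _ => by positivity) (fun j hj => (mem_filter.1 hj).2) (by rw [hφ, sum_comm])) (four P)
  have r2 := hc (fun i j => if ¬P i j then c i j / φ else 0) (fun j _ => by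
    simp only [ite_pow, zero_pow two_ne_zero]
    rw [← sum_filter]
    exact key _ A (fun i => c i j) (fun i => ∑ j' ∈ B, c i j' ^ 4) (filter_subset _ _)
      (fun i _ => by positivity) (fun i hi => (not_le.1 (mem_filter.1 hi).2).le) hφ.ge)
    (four fun i j => ¬P i j)
  have r3 : φ ^ 3 ≤ 2 * Λ := by
    have : ∑ i ∈ A, ∑ j ∈ B, c i j ^ 3 * (if P i j then c i j / φ else 0) +
        ∑ i ∈ A, ∑ j ∈ B, c i j ^ 3 * (if ¬P i j then c i j / φ else 0) = φ ^ 3 := by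
      rw [show φ ^ 3 = φ ^ 4 / φ by field_simp, hφ]
      simp only [← sum_add_distrib, sum_div]
      refine sum_congr rfl fun i _ => sum_congr rfl fun j _ => ?_
      by_cases h : P i j <;> simp only [h, not_true, not_false_iff, if_true, if_false] <;> ring
    linarith
  rw [← p23]
  exact Real.rpow_le_rpow (by positivity) (pow_le_pow_left₀ (by positivity) r3 2)
    (rr_pos (by norm_num)).le

variable {ι : Type} [Fintype ι] [DecidableEq ι]

theorem av_mul_ev (B : Finset ι) (c c' : Finset ι → ℝ) :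
    av (fun x => evB B c x * evB B c' x) = ∑ T ∈ B.powerset, c T * c' T := by
  have h1 := parseval B fun T => c T + c' T
  have e : (fun x => evB B (fun T => c T + c' T) x ^ 2) = fun x =>
      evB B c x ^ 2 + evB B c' x ^ 2 + 2 * (evB B c x * evB B c' x) := by
    funext x
    simp only [evB, add_mul, sum_add_distrib]
    ring
  rw [e, av_add, av_add, av_mul, parseval, parseval] at h1
  simp only [add_sq, sum_add_distrib, mul_assoc, ← mul_sum] at h1
  linarith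

theorem test_le (B x : Finset ι) (u : ι → ℝ) (h : ∑ j ∈ B, u j ^ 2 ≤ 1) :
    |evB B (fun T => (Complex.I ^ T.card).im * ∏ j ∈ T, u j) x| ≤ 2 := by
  have h1 := norm_prod_le B (fun j => u j * sg x j) (by simpa only [mul_pow, sg_sq, mul_one] using h)
  refine le_trans (le_of_eq ?_) ((Complex.abs_im_le_norm _).trans h1)
  rw [prod_expand, Complex.im_sum, evB]
  congr 1
  refine sum_congr rfl fun T _ => ?_
  rw [Complex.im_mul_ofReal, prod_mul_distrib, chi, mul_assoc]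

theorem err_le {a : Finset ι → ℝ} {k : ℕ} (hk : 2 ≤ k) {Γ : ℝ} (h0 : 0 ≤ Γ)
    (h : N2 a (1 + k) ≤ Γ ^ 2) (A : Finset ι) (u : ι → ι → ℝ)
    (h2 : ∀ i ∈ A, ∑ j ∈ Aᶜ, u i j ^ 2 ≤ 1) (h4 : ∑ i ∈ A, ∑ j ∈ Aᶜ, u i j ^ 4 ≤ 1) :
    |∑ i ∈ A, ∑ T ∈ powersetCard k Aᶜ, a ({i} ∪ T) * ∏ j ∈ T, u i j| ≤ Γ := by
  have k2 : (2 : ℝ) ≤ k := by exact_mod_cast hk
  have k0 : (0 : ℝ) < k := by linarith
  have hr := rr_pos (k := 1 + k) (by omega)
  have H := holder2 (A ×ˢ powersetCard k Aᶜ) (fun p => (a ({p.1} ∪ p.2) ^ 2) ^ rr (1 + k))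
    (fun p => ∏ j ∈ p.2, (u p.1 j ^ 2) ^ (1 + 1 / (k : ℝ))) (fun _ _ => by positivity)
    (fun _ _ => by positivity) (a := (k + 2) / (2 * (k + 1))) (b := k / (2 * (k + 1)))
    (by positivity) (by positivity) (by field_simp; ring)
  have e1 : rr (1 + k) * ((k + 2) / (2 * (k + 1))) = 1 / 2 := by
    rw [rr]; push_cast; field_simp; ring
  have hs : ∀ y : ℝ, (y ^ 2) ^ (1 / 2 : ℝ) = |y| := fun y => by rw [sq_rpow_eq]; norm_num
  have b1 : ∑ p ∈ A ×ˢ powersetCard k Aᶜ, (a ({p.1} ∪ p.2) ^ 2) ^ rr (1 + k) ≤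
      (Γ ^ 2) ^ rr (1 + k) := by
    rw [sum_product, ← sum_one A fun S => ∑ T ∈ powersetCard k Aᶜ, (a (S ∪ T) ^ 2) ^ rr (1 + k)]
    refine (sum_pair_le disjoint_compl_right (subset_univ _) (subset_univ _) 1 k
      (fun U => (a U ^ 2) ^ rr (1 + k)) fun U => by positivity).trans ?_
    have := Real.rpow_le_rpow (N2_nonneg _ _) h hr.le
    rwa [N2, Ph_rpow hr fun _ _ => sq_nonneg _] at this
  have b2 : ∑ p ∈ A ×ˢ powersetCard k Aᶜ, ∏ j ∈ p.2, (u p.1 j ^ 2) ^ (1 + 1 / (k : ℝ)) ≤ 1 := by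
    rw [sum_product]
    refine le_trans (sum_le_sum fun i hi => ?_) h4
    refine (esym_le Aᶜ (fun j => (u i j ^ 2) ^ (1 + 1 / (k : ℝ))) (fun j => by positivity) k).trans ?_
    have k1 : 0 < 1 - 1 / (k : ℝ) := by
      rw [sub_pos, div_lt_one k0]; linarith
    have G := holder2 Aᶜ (fun j => u i j ^ 4) (fun j => u i j ^ 2) (fun _ _ => by positivity)
      (fun _ _ => by positivity) (a := 1 / k) (b := 1 - 1 / k) (by positivity) k1 (by ring)
    have G1 : ∑ j ∈ Aᶜ, (u i j ^ 2) ^ (1 + 1 / (k : ℝ)) ≤ (∑ j ∈ Aᶜ, u i j ^ 4) ^ (1 / (k : ℝ)) := by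
      refine le_trans (le_of_eq (sum_congr rfl fun j _ => ?_)) (G.trans (mul_le_of_le_one_right
        (by positivity) (Real.rpow_le_one (by positivity) (h2 i hi) k1.le)))
      rw [show u i j ^ 4 = (u i j ^ 2) ^ ((2 : ℕ) : ℝ) by rw [Real.rpow_natCast]; ring,
        ← Real.rpow_mul (sq_nonneg _), ← Real.rpow_add' (sq_nonneg _) (by positivity)]
      congr 1
      push_cast
      ring
    refine (pow_le_pow_left₀ (by positivity) G1 k).trans (le_of_eq ?_)
    rw [one_div, Real.rpow_inv_natCast_pow (by positivity) (by omega)]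
  rw [← sum_product' (f := fun i T => a ({i} ∪ T) * ∏ j ∈ T, u i j)]
  refine (abs_sum_le_sum_abs _ _).trans (le_trans (le_of_eq (sum_congr rfl fun p _ => ?_))
    (H.trans ?_))
  · rw [← Real.rpow_mul (sq_nonneg _), e1, hs, abs_mul, abs_prod,
      ← Real.finsetProd_rpow _ _ fun _ _ => by positivity]
    congr 1
    refine prod_congr rfl fun j _ => ?_
    rw [← Real.rpow_mul (sq_nonneg _), ← hs]
    congr 1
    field_simp
  · refine (mul_le_of_le_one_right (by positivity)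
      (Real.rpow_le_one (by positivity) b2 (by positivity))).trans ?_
    refine (Real.rpow_le_rpow (by positivity) b1 (by positivity)).trans (le_of_eq ?_)
    rw [← Real.rpow_mul (sq_nonneg _), e1, hs, abs_of_nonneg h0]

theorem core {m : ℕ} {γ M t : ℝ} (h : Hy m 2 γ) (h0 : 0 ≤ γ) (hm : 1 ≤ m) {a : Finset ι → ℝ}
    (ha : Adm a m M) (t0 : 0 < t) (t1 : 84 * t ≤ 1) (A : Finset ι) (u : ι → ι → ℝ)
    (h2 : ∀ i ∈ A, ∑ j ∈ Aᶜ, u i j ^ 2 ≤ 1) (h4 : ∑ i ∈ A, ∑ j ∈ Aᶜ, u i j ^ 4 ≤ 1) :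
    ∑ i ∈ A, ∑ j ∈ Aᶜ, a ({i} ∪ {j}) * u i j ≤ (2 * m / t + 2 * 42 ^ 3 * t * γ) * M := by
  have hM := ha.nonneg
  let E : ℕ → ℝ := fun k => (Complex.I ^ k).im * t ^ k *
    ∑ i ∈ A, ∑ T ∈ powersetCard k Aᶜ, a ({i} ∪ T) * ∏ j ∈ T, u i j
  have up : av (fun x => ∑ i ∈ A, evB Aᶜ (fun T => a ({i} ∪ T)) x *
      evB Aᶜ (fun T => (Complex.I ^ T.card).im * ∏ j ∈ T, t * u i j) x) ≤ 2 * (m * M) := by
    refine av_le fun x => ?_
    have l1 := level_one hm (ha.res A x)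
    have l2 := sum_le_sum_of_subset_of_nonneg (f := fun S => |res a A x S|)
      (powersetCard_mono (n := 1) (subset_univ A)) fun _ _ _ => abs_nonneg _
    rw [sum_one A] at l2
    refine le_trans (sum_le_sum (g := fun i => 2 * |res a A x {i}|) fun i hi => ?_) ?_
    · rw [res_of_subset (singleton_subset_iff.2 hi), mul_comm 2]
      refine (le_abs_self _).trans ?_
      rw [abs_mul]
      refine mul_le_mul_of_nonneg_left (test_le _ _ _ ?_) (abs_nonneg _)
      simp only [mul_pow, ← mul_sum]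
      exact mul_le_one₀ (pow_le_one₀ t0.le (by linarith)) (by positivity) (h2 i hi)
    · rw [← mul_sum]
      linarith
  have ex : av (fun x => ∑ i ∈ A, evB Aᶜ (fun T => a ({i} ∪ T)) x *
      evB Aᶜ (fun T => (Complex.I ^ T.card).im * ∏ j ∈ T, t * u i j) x) =
      ∑ k ∈ range (Aᶜ.card + 2), E k := by
    rw [av_sum, sum_range_succ]
    simp only [av_mul_ev, sum_powerset, E]
    rw [powersetCard_eq_empty.2 (Nat.lt_succ_self _)]
    simp only [sum_empty, sum_const_zero, mul_zero, add_zero, mul_sum]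
    rw [sum_comm]
    refine sum_congr rfl fun k _ => sum_congr rfl fun i _ => sum_congr rfl fun T hT => ?_
    rw [prod_mul_distrib, prod_const, (mem_powersetCard.1 hT).2]
    ring
  have e0 : E 0 = 0 := by simp [E]
  have e1 : E (0 + 1) = t * ∑ i ∈ A, ∑ j ∈ Aᶜ, a ({i} ∪ {j}) * u i j := by
    simp only [E, zero_add, pow_one, Complex.I_im, one_mul, sum_one, prod_singleton]
  have e2 : ∀ k, -((42 * t) ^ k * (42 ^ 3 * t ^ 2 * γ * M)) ≤ E (k + 1 + 1) := fun k => by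
    have b := err_le (k := k + 1 + 1) (by omega) (by positivity)
      (h.lift h0 (1 + (k + 1 + 1)) (by omega) ι a M ha) A u h2 h4
    have c : |(Complex.I ^ (k + 1 + 1)).im| ≤ 1 :=
      (Complex.abs_im_le_norm _).trans (by simp)
    refine neg_le_of_abs_le ?_
    simp only [E, abs_mul, abs_of_pos (pow_pos t0 _)]
    calc _ ≤ 1 * t ^ (k + 1 + 1) * (42 ^ (1 + (k + 1 + 1)) * γ * M) := by gcongr
      _ = _ := by ring
  have g : ∑ k ∈ range Aᶜ.card, (42 * t) ^ k ≤ 2 :=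
    (sum_le_sum fun k _ => pow_le_pow_left₀ (by positivity) (by linarith) k).trans
      (sum_geometric_two_le _)
  have e3 := sum_le_sum (s := range Aᶜ.card) fun k _ => e2 k
  rw [sum_neg_distrib, ← sum_mul] at e3
  have e4 := mul_le_mul_of_nonneg_right g (by positivity : 0 ≤ 42 ^ 3 * t ^ 2 * γ * M)
  rw [ex, sum_range_succ', sum_range_succ', e0, e1] at up
  refine le_of_mul_le_mul_left ?_ t0
  have e5 : t * ((2 * m / t + 2 * 42 ^ 3 * t * γ) * M) =
      2 * (m * M) + 2 * (42 ^ 3 * t ^ 2 * γ * M) := by field_simp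
  linarith

theorem Hy.step {m : ℕ} {γ : ℝ} (h : Hy m 2 γ) (h0 : 0 ≤ γ) (hm : 1 ≤ m) :
    Hy m 2 (288 * 42 ^ 3 * m + γ / 2) := by
  intro ι _ _ a M ha
  have hM := ha.nonneg
  have hr := rr_pos (k := 2) (by norm_num)
  obtain ⟨Λ, hΛ⟩ : ∃ Λ : ℝ, Λ = (2 * m / (1 / (24 * 42 ^ 3)) +
    2 * 42 ^ 3 * (1 / (24 * 42 ^ 3)) * γ) * M := ⟨_, rfl⟩
  have c := fun A u => hΛ ▸ core h h0 hm ha (t := 1 / (24 * 42 ^ 3)) (by norm_num) (by norm_num) A u
  have k1 := split_avg 2 {1} (by simp) ((1 / 2 : ℝ) ^ 2)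
    (fun S hS => by rw [← hS]; exact prob_single S (by omega))
    (fun S => (a S ^ 2) ^ rr 2) (fun S => by positivity)
  have k2 : ∀ A : Finset ι, ∑ i ∈ ({1} : Finset ℕ), ∑ S ∈ powersetCard i A,
      ∑ T ∈ powersetCard (2 - i) Aᶜ, (a (S ∪ T) ^ 2) ^ rr 2 ≤ ((2 * Λ) ^ 2) ^ rr 2 := by
    intro A
    simp only [sum_singleton, Nat.add_one_sub_one, sum_one]
    refine decomp A Aᶜ (fun i j => a ({i} ∪ {j})) (c A) fun u h2 h4 => ?_
    have := c Aᶜ (fun j i => u i j) (by rwa [compl_compl]) (by rwa [compl_compl, sum_comm])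
    rw [compl_compl, sum_comm] at this
    simpa only [union_comm] using this
  have k3 := k1.trans (av_le k2)
  have k4 : N2 a 2 ≤ 8 * (2 * Λ) ^ 2 := by
    apply le_of_rpow_le hr (sum_rpow_nonneg fun _ _ => sq_nonneg _) (by positivity)
    have e : (8 : ℝ) ^ rr 2 = 4 := by
      rw [show (8 : ℝ) = 2 ^ (3 : ℝ) by norm_num, ← Real.rpow_mul (by norm_num), rr]
      norm_num
    rw [Real.mul_rpow (by norm_num) (by positivity), e]
    linarith
  have e : (288 * 42 ^ 3 * m + γ / 2) * M = 6 * Λ := by rw [hΛ]; ring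
  rw [e]
  nlinarith [sq_nonneg Λ]

theorem level_two (m : ℕ) (hm : 1 ≤ m) : Hy m 2 (576 * 42 ^ 3 * m) := by
  obtain ⟨C, C0, hC⟩ := bd_two
  have it : ∀ n : ℕ, Hy m 2 (576 * 42 ^ 3 * m + √(C * (m : ℝ) ^ (3 : ℝ)) * (1 / 2) ^ n) := by
    intro n
    induction n with
    | zero =>
      refine Hy.mono (γ := √(C * (m : ℝ) ^ (3 : ℝ))) (fun ι _ _ a M ha => ?_) (by positivity) ?_
      · rw [mul_pow, Real.sq_sqrt (by positivity)]
        exact hC ι a m M hm ha
      · rw [pow_zero, mul_one]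
        exact le_add_of_nonneg_left (by positivity)
    | succ n ih => exact (ih.step (by positivity) hm).mono (by positivity) (le_of_eq (by ring))
  intro ι _ _ a M ha
  have lim : Filter.Tendsto (fun n : ℕ => ((576 * 42 ^ 3 * m +
      √(C * (m : ℝ) ^ (3 : ℝ)) * (1 / 2) ^ n) * M) ^ 2) Filter.atTop
      (nhds (((576 * 42 ^ 3 * m + √(C * (m : ℝ) ^ (3 : ℝ)) * 0) * M) ^ 2)) :=
    ((((tendsto_pow_atTop_nhds_zero_of_lt_one (by norm_num) (by norm_num)).const_mul _).const_add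
      _).mul_const _).pow 2
  rw [mul_zero, add_zero] at lim
  exact ge_of_tendsto' lim fun n => it n ι a M ha

theorem bd_lin (k : ℕ) : ∃ C, 0 ≤ C ∧ (1 ≤ k → Bd k C 2) := by
  rcases Nat.lt_or_ge k 2 with h | h
  · exact ⟨1, zero_le_one, fun h1 => by rw [show k = 1 by omega]; exact bd_one⟩
  · refine ⟨(42 ^ k * (576 * 42 ^ 3)) ^ 2, by positivity, fun _ ι _ _ a m M hm ha => ?_⟩
    refine ((level_two m hm).lift (by positivity) k h ι a M ha).trans (le_of_eq ?_)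
    rw [Real.rpow_two]
    ring

end Pool.Agent.MP_9808b6_an.Lin
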