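import Pool.Agent.MP_9808b6_an.Lin.B

/-! Linear bound for every level with polynomial constants, and the resulting growth exponent. -/

open Finset Filter Topology

namespace Pool.Agent.MP_9808b6_an.Lin

theorem graded' {B : ℝ} (hB : 2 / Real.log 2 < B) (k₁ : ℕ) (hk₁ : 2 ≤ k₁) :
    ∃ C : ℝ, 0 ≤ C ∧ ∀ (K : ℕ) (ι : Type) [Fintype ι] [DecidableEq ι] (a : Finset ι → ℝ)
      (m : ℕ) (M : ℝ), 1 ≤ m → Adm a m M →
      ∑ k ∈ Icc k₁ K, (k : ℝ) ^ (-B) * N2 a k ≤ C * (m : ℝ) ^ (2 : ℝ) * M ^ 2 := by
  obtain ⟨β, κ, k₀, J, π, hβ, hκ0, hκ1, H⟩ := params hB k₁ hk₁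
  have hB0 : 0 < B := lt_trans (div_pos two_pos (Real.log_pos (by norm_num))) hB
  choose Ck hCk0 hCk using bd_lin
  have hC0 : 0 ≤ ∑ k ∈ range k₀, Ck k := Finset.sum_nonneg fun k _ => hCk0 k
  have h1κ : 0 < 1 - κ := by linarith
  refine ⟨(∑ k ∈ range k₀, Ck k) / (1 - κ), by positivity, fun K => ?_⟩
  induction K with
  | zero =>
    intro ι _ _ a m M hm ha
    rw [Icc_eq_empty (by omega), sum_empty]
    positivity
  | succ K ih =>
    intro ι _ _ a m M hm ha
    set C := (∑ k ∈ range k₀, Ck k) / (1 - κ) with hC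
    set D := (m : ℝ) ^ (2 : ℝ) * M ^ 2 with hD
    have hD0 : 0 ≤ D := by positivity
    rw [← Finset.sum_filter_add_sum_filter_not (Icc k₁ (K + 1)) (fun k => k < k₀)]
    have P1 : ∑ k ∈ (Icc k₁ (K + 1)).filter (fun k => k < k₀), (k : ℝ) ^ (-B) * N2 a k ≤
        (∑ k ∈ range k₀, Ck k) * D := by
      rw [Finset.sum_mul]
      refine le_trans (Finset.sum_le_sum (g := fun k => Ck k * D) ?_)
        (Finset.sum_le_sum_of_subset_of_nonneg ?_ fun k _ _ => mul_nonneg (hCk0 k) hD0)
      · intro k hk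
        have k1 : k₁ ≤ k := (mem_Icc.1 (mem_filter.1 hk).1).1
        have k2 : (k₁ : ℝ) ≤ k := by exact_mod_cast k1
        have k3 : (2 : ℝ) ≤ k₁ := by exact_mod_cast hk₁
        have h1 := hCk k (by omega) ι a m M hm ha
        rw [hD, ← mul_assoc]
        refine le_trans (mul_le_of_le_one_left (N2_nonneg a k) ?_) h1
        exact Real.rpow_le_one_of_one_le_of_nonpos (by linarith) (by linarith)
      · intro k hk
        exact mem_range.2 (mem_filter.1 hk).2
    have P2 : ∑ k ∈ (Icc k₁ (K + 1)).filter (fun k => ¬ k < k₀), (k : ℝ) ^ (-B) * N2 a k ≤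
        κ * (C * D) := by
      set T := (Icc k₁ (K + 1)).filter (fun k => ¬ k < k₀) with hT
      have hTk : ∀ k ∈ T, k₀ ≤ k ∧ k ≤ K + 1 := fun k hk =>
        ⟨not_lt.1 (mem_filter.1 hk).2, (mem_Icc.1 (mem_filter.1 hk).1).2⟩
      calc ∑ k ∈ T, (k : ℝ) ^ (-B) * N2 a k
          ≤ ∑ k ∈ T, av (fun A => ∑ j ∈ J k,
              κ * ((j : ℝ) ^ (-B) * ((2 * rr j - 1) ^ (k - j) * XX a A j (k - j)))) := by
            apply Finset.sum_le_sum
            intro k hk
            obtain ⟨c1, c2, c3, c4⟩ := H k (hTk k hk).1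
            have h1 := N2_le_central a c1 (J k) (π k) β c2 hβ (c3 ι) (fun j hj => (c4 j hj).1)
            refine (mul_le_mul_of_nonneg_left h1 (by positivity)).trans ?_
            rw [← mul_assoc, ← av_mul]
            apply av_mono
            intro A
            rw [Finset.mul_sum]
            apply Finset.sum_le_sum
            intro j hj
            refine (mul_le_mul_of_nonneg_right (c4 j hj).2.2 (XX_nonneg _ _ _ _)).trans
              (le_of_eq ?_)
            ring
        _ ≤ κ * (C * D) := by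
            rw [← av_sum]
            apply av_le
            intro A
            have e : ∑ k ∈ T, ∑ j ∈ J k,
                κ * ((j : ℝ) ^ (-B) * ((2 * rr j - 1) ^ (k - j) * XX a A j (k - j))) =
                κ * ∑ j ∈ Icc k₁ K, (j : ℝ) ^ (-B) * ∑ k ∈ T.filter (fun k => j ∈ J k),
                  (2 * rr j - 1) ^ (k - j) * XX a A j (k - j) := by
              simp only [Finset.mul_sum]
              apply Finset.sum_comm'
              intro k j
              simp only [mem_filter, mem_Icc]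
              constructor
              · rintro ⟨h1, h2⟩
                obtain ⟨-, -, -, c4⟩ := H k (hTk k h1).1
                have := (c4 j h2).1.2.1
                have := (c4 j h2).2.1
                have := (hTk k h1).2
                exact ⟨⟨h1, h2⟩, by omega, by omega⟩
              · rintro ⟨h1, -⟩
                exact h1
            rw [e]
            apply mul_le_mul_of_nonneg_left _ hκ0
            calc _ ≤ ∑ j ∈ Icc k₁ K, (j : ℝ) ^ (-B) * av (fun x => N2 (res a A x) j) := by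
                  apply Finset.sum_le_sum
                  intro j hj
                  apply mul_le_mul_of_nonneg_left _ (by positivity)
                  refine le_trans (le_of_eq ?_) (hyper_X a A (hk₁.trans (mem_Icc.1 hj).1)
                    ((T.filter (fun k => j ∈ J k)).image (fun k => k - j)))
                  rw [Finset.sum_image]
                  intro k hk k' hk' he
                  obtain ⟨h1, h2⟩ := mem_filter.1 hk
                  obtain ⟨h1', h2'⟩ := mem_filter.1 hk'
                  have := ((H k (hTk k h1).1).2.2.2 j h2).1.2.1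
                  have := ((H k' (hTk k' h1').1).2.2.2 j h2').1.2.1
                  simp only at he
                  omega
              _ = av (fun x => ∑ j ∈ Icc k₁ K, (j : ℝ) ^ (-B) * N2 (res a A x) j) := by
                  rw [av_sum]
                  simp only [av_mul]
              _ ≤ C * D := by
                  apply av_le
                  intro x
                  rw [hD, ← mul_assoc]
                  exact ih ι _ m M hm (ha.res A x)
    have e : (∑ k ∈ range k₀, Ck k) = C * (1 - κ) := by rw [hC]; field_simp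
    rw [mul_assoc, ← hD]
    rw [e] at P1
    linarith

theorem all_levels' {θ : ℝ} (hθ : 1 + 1 / Real.log 2 < θ) :
    ∃ C : ℝ, 0 ≤ C ∧ ∀ (ι : Type) [Fintype ι] [DecidableEq ι] (a : Finset ι → ℝ)
      (d : ℕ) (M : ℝ), 1 ≤ d → Adm a d M →
      Ph (rr d) univ (fun S => a S ^ 2) ≤ C * (d : ℝ) ^ (2 * θ) * M ^ 2 := by
  have hl : 0 < Real.log 2 := Real.log_pos (by norm_num)
  have hl2 : Real.log 2 < 1 := by linarith [Real.log_two_lt_d9]
  have hl3 : 1 < 1 / Real.log 2 := by rw [lt_div_iff₀ hl]; linarith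
  set ε := θ - (1 + 1 / Real.log 2) with hε
  have hε0 : 0 < ε := by linarith
  obtain ⟨k₁, hk₁⟩ : ∃ k₁ : ℕ, k₁ = 2 := ⟨2, rfl⟩
  set B := 2 / Real.log 2 + ε with hB
  obtain ⟨C, hC0, hC⟩ := graded' (B := B) (by linarith) k₁ (by omega)
  have hB0 : 0 < B := by positivity
  choose Ck hCk0 hCk using bd_lin
  have hS0 : 0 ≤ ∑ k ∈ range k₁, Ck k := Finset.sum_nonneg fun k _ => hCk0 k
  refine ⟨2 * (1 + ∑ k ∈ range k₁, Ck k + C), by positivity, ?_⟩
  intro ι _ _ a d M hd ha
  have hd' : (1 : ℝ) ≤ d := by exact_mod_cast hd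
  have hr := rr_pos hd
  set D := (d : ℝ) ^ (2 * θ) * M ^ 2 with hD
  have hD0 : 0 ≤ D := by positivity
  let v : ℕ → ℝ := fun k => Ph (rr d) (powersetCard k univ) (fun S => a S ^ 2)
  have hv0 : ∀ k, 0 ≤ v k := fun k => Ph_nonneg fun _ _ => sq_nonneg _
  have e1 : Ph (rr d) univ (fun S => a S ^ 2) = Ph (rr d) (range (d + 1)) v := by
    simp only [v]
    rw [Ph, Ph]
    congr 1
    simp only [Ph_rpow hr (fun _ _ => sq_nonneg _), powersetCard_eq_filter, powerset_univ,
      Finset.sum_filter]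
    rw [Finset.sum_comm]
    apply Finset.sum_congr rfl
    intro S _
    rw [Finset.sum_ite_eq]
    split_ifs with h
    · rfl
    · rw [ha.1 S (by simpa [Nat.lt_succ_iff] using h)]
      simp [Real.zero_rpow hr.ne']
  have e2 := Ph_le_card_mul_sum hr (rr_le_one d) (range (d + 1)) v (fun k _ => hv0 k)
  have e3 : ((range (d + 1)).card : ℝ) ^ (1 / rr d - 1) ≤ 2 := by
    rw [inv_rr hd, add_sub_cancel_left, card_range]
    apply le_of_rpow_le (by linarith) (by positivity) (by norm_num)
    rw [Real.rpow_natCast]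
    exact_mod_cast Nat.lt_two_pow_self
  have hvN : ∀ k, 1 ≤ k → k ≤ d → v k ≤ N2 a k := by
    intro k k1 k2
    apply Ph_anti (rr_pos k1) _ _ _ (fun _ _ => sq_nonneg _)
    have : (k : ℝ) ≤ d := by exact_mod_cast k2
    unfold rr
    rw [div_le_div_iff₀ (by positivity) (by positivity)]
    linarith
  have v0 : v 0 ≤ D := by
    have h1 : v 0 = a ∅ ^ 2 := by
      simp only [v, Ph, powersetCard_zero, sum_singleton]
      rw [← Real.rpow_mul (sq_nonneg _), mul_one_div_cancel hr.ne', Real.rpow_one]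
    have h2 : a ∅ ^ 2 ≤ M ^ 2 := le_trans (Finset.single_le_sum (f := fun S => a S ^ 2)
      (fun _ _ => sq_nonneg _) (mem_univ _)) ha.sum_sq
    rw [h1]
    refine h2.trans (le_mul_of_one_le_left (sq_nonneg _) (Real.one_le_rpow hd' (by linarith)))
  have e4 : ∑ k ∈ range (d + 1), v k ≤ (1 + ∑ k ∈ range k₁, Ck k + C) * D := by
    rw [← Finset.sum_filter_add_sum_filter_not (range (d + 1)) (fun k => k < k₁), add_mul]
    apply add_le_add
    · have : ∀ k ∈ (range (d + 1)).filter (fun k => k < k₁),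
          v k ≤ (if k = 0 then D else 0) + Ck k * D := by
        intro k hk
        split_ifs with h0
        · subst h0
          exact v0.trans (le_add_of_nonneg_right (mul_nonneg (hCk0 0) hD0))
        · have k1 : 1 ≤ k := by omega
          rw [zero_add, hD, ← mul_assoc]
          refine (hvN k k1 (by have := mem_range.1 (mem_filter.1 hk).1; omega)).trans ?_
          exact ((hCk k k1).mono (hCk0 k) (by linarith)) ι a d M hd ha
      refine (Finset.sum_le_sum this).trans ?_
      refine le_trans (Finset.sum_le_sum_of_subset_of_nonneg (t := range k₁)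
        (fun k hk => mem_range.2 (mem_filter.1 hk).2) (fun k _ _ => ?_)) (le_of_eq ?_)
      · have := mul_nonneg (hCk0 k) hD0
        split_ifs <;> linarith
      · rw [Finset.sum_add_distrib, Finset.sum_ite_eq', if_pos (mem_range.2 (by omega)),
          ← Finset.sum_mul]
        ring
    · have e5 : (range (d + 1)).filter (fun k => ¬ k < k₁) = Icc k₁ d := by
        ext k; simp only [mem_filter, mem_range, mem_Icc]; omega
      rw [e5]
      calc ∑ k ∈ Icc k₁ d, v k ≤ ∑ k ∈ Icc k₁ d, (d : ℝ) ^ B * ((k : ℝ) ^ (-B) * N2 a k) := by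
            apply Finset.sum_le_sum
            intro k hk
            obtain ⟨k1, k2⟩ := mem_Icc.1 hk
            have k3 : (0 : ℝ) < k := by exact_mod_cast (show 0 < k by omega)
            have k4 : (k : ℝ) ≤ d := by exact_mod_cast k2
            refine (hvN k (by omega) k2).trans ?_
            rw [← mul_assoc]
            apply le_mul_of_one_le_left (N2_nonneg a k)
            rw [Real.rpow_neg k3.le, ← div_eq_mul_inv, one_le_div (Real.rpow_pos_of_pos k3 _)]
            gcongr
        _ ≤ (d : ℝ) ^ B * (C * (d : ℝ) ^ (2 : ℝ) * M ^ 2) := by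
            rw [← Finset.mul_sum]
            exact mul_le_mul_of_nonneg_left (hC d ι a d M hd ha) (by positivity)
        _ = C * ((d : ℝ) ^ (B + (2 : ℝ)) * M ^ 2) := by
            rw [Real.rpow_add (x := d) (by linarith) B]; ring
        _ ≤ C * D := by
            rw [hD]
            gcongr
            have : 2 / Real.log 2 = 2 * (1 / Real.log 2) := by ring
            linarith
  rw [e1]
  calc _ ≤ _ := e2
    _ ≤ 2 * ((1 + ∑ k ∈ range k₁, Ck k + C) * D) := by
        gcongr
        exact Finset.sum_nonneg fun k _ => hv0 k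
    _ = _ := by rw [hD]; ring

theorem main' (θ : ℝ) (hθ : 1 + 1 / Real.log 2 < θ) : ∃ K : ℝ, ∀ d : ℕ, 1 ≤ d → ∀ n : ℕ,
    ∀ a : Finset (Fin n) → ℝ, (∀ S : Finset (Fin n), d < S.card → a S = 0) →
    ∀ M : ℝ,
      (∀ x : Fin n → ℝ, (∀ i, x i = 1 ∨ x i = -1) →
        |∑ S : Finset (Fin n), a S * ∏ i ∈ S, x i| ≤ M) →
      (∑ S : Finset (Fin n), |a S| ^ ((2 * (d : ℝ)) / ((d : ℝ) + 1))) ^
          (((d : ℝ) + 1) / (2 * (d : ℝ))) ≤ K * (d : ℝ) ^ θ * M := by
  obtain ⟨C, hC0, hC⟩ := all_levels' hθ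
  refine ⟨√C, fun d hd n a ha M hM => ?_⟩
  have hd' : (0 : ℝ) < d := by exact_mod_cast hd
  have hA : Adm a d M := ⟨ha, fun x => by
    have := hM (sg x) (fun i => by unfold sg; split_ifs <;> simp)
    simpa only [evB, powerset_univ, chi] using this⟩
  have h := hC (Fin n) a d M hd hA
  have hM0 := hA.nonneg
  apply (pow_le_pow_iff_left₀ (by positivity) (by positivity) two_ne_zero).1
  rw [mul_pow, mul_pow, Real.sq_sqrt hC0, ← Real.rpow_natCast ((d : ℝ) ^ θ),
    ← Real.rpow_mul hd'.le, ← Real.rpow_natCast (_ ^ (((d : ℝ) + 1) / (2 * (d : ℝ)))),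
    ← Real.rpow_mul (by positivity)]
  refine le_trans (le_of_eq ?_) (h.trans (le_of_eq ?_))
  · rw [Ph]
    congr 1
    · apply Finset.sum_congr rfl
      intro S _
      rw [sq_rpow_eq, rr, mul_div_assoc]
    · rw [rr]; push_cast; field_simp
  · push_cast; ring_nf

theorem upper (θ : ℝ) (hθ : 1 / Real.log 2 < θ) : ∃ K : ℝ, ∀ k d : ℕ, 1 ≤ k → 1 ≤ d → ∀ n : ℕ,
    ∀ a : Finset (Fin n) → ℝ, (∀ S : Finset (Fin n), d < S.card → a S = 0) →
    ∀ M : ℝ,
      (∀ x : Fin n → ℝ, (∀ i, x i = 1 ∨ x i = -1) →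
        |∑ S : Finset (Fin n), a S * ∏ i ∈ S, x i| ≤ M) →
      (∑ S ∈ powersetCard k univ, |a S| ^ ((2 * (k : ℝ)) / ((k : ℝ) + 1))) ^
          (((k : ℝ) + 1) / (2 * (k : ℝ))) ≤ K * (k : ℝ) ^ θ * d * M := by
  have hl : 0 < 1 / Real.log 2 := one_div_pos.2 (Real.log_pos (by norm_num))
  obtain ⟨C, hC0, hC⟩ := graded' (B := 2 * θ) (by
    have : 2 / Real.log 2 = 2 * (1 / Real.log 2) := by ring
    linarith) 2 le_rfl
  refine ⟨√(C + 1), fun k d hk hd n a ha M hM => ?_⟩
  have hk' : (1 : ℝ) ≤ k := by exact_mod_cast hk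
  have hA : Adm a d M := ⟨ha, fun x => by
    have := hM (sg x) (fun i => by unfold sg; split_ifs <;> simp)
    simpa only [evB, powerset_univ, chi] using this⟩
  have hM0 := hA.nonneg
  have k1 : 1 ≤ (k : ℝ) ^ (2 * θ) := Real.one_le_rpow hk' (by linarith)
  have h : N2 a k ≤ (C + 1) * (k : ℝ) ^ (2 * θ) * ((d : ℝ) ^ 2 * M ^ 2) := by
    rcases hk.eq_or_lt with e | e
    · rw [← e] at k1 ⊢
      refine (N2_one hd hA).trans ?_
      rw [mul_pow]
      exact le_mul_of_one_le_left (by positivity) (one_le_mul_of_one_le_of_one_le (by linarith) k1)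
    · have h1 := (single_le_sum (f := fun k : ℕ => (k : ℝ) ^ (-(2 * θ)) * N2 a k)
        (fun j _ => mul_nonneg (by positivity) (N2_nonneg a j))
        (mem_Icc.2 ⟨e, le_rfl⟩)).trans (hC k (Fin n) a d M hd hA)
      rw [Real.rpow_neg (by linarith), inv_mul_le_iff₀ (by linarith), Real.rpow_two] at h1
      refine h1.trans ?_
      have : 0 ≤ (k : ℝ) ^ (2 * θ) * ((d : ℝ) ^ 2 * M ^ 2) := by positivity
      nlinarith
  apply (pow_le_pow_iff_left₀ (by positivity) (by positivity) two_ne_zero).1
  rw [mul_pow, mul_pow, mul_pow, Real.sq_sqrt (by linarith), ← Real.rpow_natCast ((k : ℝ) ^ θ),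
    ← Real.rpow_mul (by linarith), ← Real.rpow_natCast (_ ^ (((k : ℝ) + 1) / (2 * (k : ℝ)))),
    ← Real.rpow_mul (by positivity)]
  refine le_trans (le_of_eq ?_) (h.trans (le_of_eq ?_))
  · rw [N2, Ph]
    congr 1
    · apply Finset.sum_congr rfl
      intro S _
      rw [sq_rpow_eq, rr, mul_div_assoc]
    · rw [rr]; push_cast; field_simp
  · push_cast; ring_nf

end Pool.Agent.MP_9808b6_an.Lin
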