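import Pool.Agent.MP_9808b6_an.Lin.C

/-! The linear dependence on the degree is optimal. -/

open Finset

namespace Pool.Agent.MP_9808b6_an.Lin

theorem ex_bound {α : Type} [Fintype α] [DecidableEq α] (d : ℕ) (t : ℝ) (ω : ℂ) (x : α → ℝ)
    (t0 : 0 ≤ t) (hω : ‖ω‖ = 1) (h1 : Fintype.card α * t ^ 2 ≤ 1)
    (h2 : 3 * (Fintype.card α * t) ≤ d) (hx : ∀ i, x i = 1 ∨ x i = -1) :
    |∑ S : Finset α, (if S.card ≤ d then (ω * Complex.I ^ S.card).re * t ^ S.card else 0) *
      ∏ i ∈ S, x i| ≤ 3 := by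
  have x1 : ∀ i, |x i| = 1 := fun i => by rcases hx i with h | h <;> simp [h]
  have x2 : ∀ i, x i ^ 2 = 1 := fun i => by rw [← sq_abs, x1, one_pow]
  have a1 := norm_prod_le univ (fun i => t * x i) (by simpa [mul_pow, x2] using h1)
  have a2 : |∑ S : Finset α, (ω * Complex.I ^ S.card).re * t ^ S.card * ∏ i ∈ S, x i| ≤ 2 := by
    refine le_trans (le_of_eq ?_) ((Complex.abs_re_le_norm
      (ω * ∏ j, (1 + Complex.I * ((t * x j : ℝ) : ℂ)))).trans (by rwa [norm_mul, hω, one_mul]))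
    rw [prod_expand, mul_sum, Complex.re_sum, powerset_univ]
    congr 1
    refine sum_congr rfl fun S _ => ?_
    rw [← mul_assoc, Complex.re_mul_ofReal, prod_mul_distrib, prod_const, mul_assoc]
  have a3 : |∑ S : Finset α, (if S.card ≤ d then 0 else (ω * Complex.I ^ S.card).re * t ^ S.card) *
      ∏ i ∈ S, x i| ≤ 1 := by
    refine (abs_sum_le_sum_abs _ _).trans
      ((sum_le_sum (g := fun S => (∏ _i ∈ S, 2 * t) / 2 ^ d) fun S _ => ?_).trans ?_)
    · split_ifs with h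
      · rw [zero_mul, abs_zero]
        positivity
      · have b : |(ω * Complex.I ^ S.card).re| ≤ 1 :=
          (Complex.abs_re_le_norm _).trans (by simp [hω])
        have c : (2 : ℝ) ^ d ≤ 2 ^ S.card := pow_le_pow_right₀ one_le_two (not_le.1 h).le
        rw [abs_mul, abs_mul, abs_prod, prod_congr rfl fun i _ => x1 i, prod_const_one, mul_one,
          abs_of_nonneg (pow_nonneg t0 _), prod_const, mul_pow, le_div_iff₀ (by positivity)]
        calc _ ≤ 1 * t ^ S.card * 2 ^ S.card := by gcongr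
          _ = _ := by ring
    · rw [← sum_div, ← powerset_univ, ← prod_one_add, div_le_one (by positivity), prod_const,
        card_univ]
      calc (1 + 2 * t) ^ Fintype.card α ≤ Real.exp (2 * t) ^ Fintype.card α := by
            gcongr
            linarith [Real.add_one_le_exp (2 * t)]
        _ ≤ Real.exp (Real.log 2) ^ d := by
            rw [← Real.exp_nat_mul, ← Real.exp_nat_mul]
            refine Real.exp_le_exp.2 ?_
            nlinarith [Real.log_two_gt_d9, Nat.cast_nonneg (α := ℝ) d]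
        _ = _ := by rw [Real.exp_log two_pos]
  have e : ∑ S : Finset α, (if S.card ≤ d then (ω * Complex.I ^ S.card).re * t ^ S.card else 0) *
      ∏ i ∈ S, x i = ∑ S : Finset α, (ω * Complex.I ^ S.card).re * t ^ S.card * ∏ i ∈ S, x i -
      ∑ S : Finset α, (if S.card ≤ d then 0 else (ω * Complex.I ^ S.card).re * t ^ S.card) *
        ∏ i ∈ S, x i := by
    rw [← sum_sub_distrib]
    exact sum_congr rfl fun S _ => by split_ifs <;> ring
  rw [e]
  linarith [abs_sub (∑ S : Finset α, (ω * Complex.I ^ S.card).re * t ^ S.card * ∏ i ∈ S, x i)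
    (∑ S : Finset α, (if S.card ≤ d then 0 else (ω * Complex.I ^ S.card).re * t ^ S.card) *
      ∏ i ∈ S, x i)]

theorem lower (k : ℕ) (hk : 1 ≤ k) : ∃ c : ℝ, 0 < c ∧ ∀ d : ℕ, 6 * k ≤ d → ∃ n : ℕ,
    ∃ a : Finset (Fin n) → ℝ, (∀ S : Finset (Fin n), d < S.card → a S = 0) ∧
      (∀ x : Fin n → ℝ, (∀ i, x i = 1 ∨ x i = -1) →
        |∑ S : Finset (Fin n), a S * ∏ i ∈ S, x i| ≤ 1) ∧
      c * d ≤ (∑ S ∈ powersetCard k univ, |a S| ^ ((2 * (k : ℝ)) / ((k : ℝ) + 1))) ^
        (((k : ℝ) + 1) / (2 * (k : ℝ))) := by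
  have k1 : (1 : ℝ) ≤ k := by exact_mod_cast hk
  refine ⟨1 / (15 * (2 * k) ^ (((k : ℝ) + 1) / 2)), by positivity, fun d hd => ?_⟩
  obtain ⟨m, m1, m2, m3⟩ : ∃ m : ℕ, 3 * m ≤ d ∧ d ≤ 5 * m ∧ 2 * k ≤ m := ⟨d / 3, by omega⟩
  have m0 : (0 : ℝ) < m := by exact_mod_cast (by omega : 0 < m)
  refine ⟨m ^ 2, fun S => (if S.card ≤ d then ((-Complex.I) ^ k * Complex.I ^ S.card).re *
    (1 / m : ℝ) ^ S.card else 0) / 3, fun S hS => by simp only [if_neg (not_le.2 hS), zero_div],
    fun x hx => ?_, ?_⟩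
  · have := ex_bound (α := Fin (m ^ 2)) d (1 / m) ((-Complex.I) ^ k) x (by positivity) (by simp)
      (by rw [Fintype.card_fin]; push_cast; field_simp; rfl)
      (by
        have : (3 : ℝ) * m ≤ d := by exact_mod_cast m1
        rw [Fintype.card_fin]
        push_cast
        rwa [show (m : ℝ) ^ 2 * (1 / m) = m by field_simp]) hx
    simp only [div_mul_eq_mul_div, ← sum_div]
    rw [abs_div, abs_of_pos (a := (3 : ℝ)) three_pos, div_le_one three_pos]
    exact this
  · have e : ∀ S ∈ powersetCard k (univ : Finset (Fin (m ^ 2))),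
        |(if S.card ≤ d then ((-Complex.I) ^ k * Complex.I ^ S.card).re * (1 / m : ℝ) ^ S.card
          else 0) / 3| ^ ((2 * (k : ℝ)) / ((k : ℝ) + 1)) =
        ((1 / m : ℝ) ^ k / 3) ^ ((2 * (k : ℝ)) / ((k : ℝ) + 1)) := fun S hS => by
      rw [(mem_powersetCard.1 hS).2, if_pos (by omega), ← mul_pow, neg_mul, Complex.I_mul_I,
        neg_neg, one_pow, Complex.one_re, one_mul, abs_of_nonneg (by positivity)]
    rw [sum_congr rfl e, sum_const, card_powersetCard, card_univ, Fintype.card_fin, nsmul_eq_mul,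
      Real.mul_rpow (x := (((m ^ 2).choose k : ℕ) : ℝ)) (by positivity) (by positivity),
      ← Real.rpow_mul (by positivity),
      show (2 * (k : ℝ)) / ((k : ℝ) + 1) * (((k : ℝ) + 1) / (2 * (k : ℝ))) = 1 by field_simp,
      Real.rpow_one]
    have c1 : ((m : ℝ) ^ 2 / (2 * k)) ^ k ≤ ((m ^ 2).choose k : ℝ) := by
      refine le_trans ?_ (Nat.pow_le_choose k (m ^ 2))
      have f1 : ((k.factorial : ℕ) : ℝ) ≤ (k : ℝ) ^ k := by exact_mod_cast Nat.factorial_le_pow k
      have f2 : (m : ℝ) ^ 2 / 2 ≤ ((m ^ 2 + 1 - k : ℕ) : ℝ) := by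
        have : m ≤ m ^ 2 := Nat.le_self_pow two_ne_zero m
        rw [div_le_iff₀ two_pos]
        exact_mod_cast (by omega : m ^ 2 ≤ (m ^ 2 + 1 - k) * 2)
      rw [← div_div, div_pow]
      gcongr
    have c2 := Real.rpow_le_rpow (by positivity) c1
      (by positivity : 0 ≤ ((k : ℝ) + 1) / (2 * (k : ℝ)))
    rw [← Real.rpow_natCast, ← Real.rpow_mul (by positivity),
      show (k : ℝ) * (((k : ℝ) + 1) / (2 * (k : ℝ))) = ((k : ℝ) + 1) / 2 by field_simp,
      Real.div_rpow (by positivity) (by positivity), ← Real.rpow_natCast (m : ℝ),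
      ← Real.rpow_mul m0.le, show ((2 : ℕ) : ℝ) * (((k : ℝ) + 1) / 2) = ((k + 1 : ℕ) : ℝ) by
        push_cast; ring, Real.rpow_natCast] at c2
    refine le_trans ?_ (mul_le_mul_of_nonneg_right c2 (by positivity))
    have d5 : (d : ℝ) ≤ 5 * m := by exact_mod_cast m2
    have p0 : 0 < (2 * (k : ℝ)) ^ (((k : ℝ) + 1) / 2) := by positivity
    calc _ ≤ 1 / (15 * (2 * (k : ℝ)) ^ (((k : ℝ) + 1) / 2)) * (5 * m) := by gcongr
      _ = _ := by
        rw [one_div_pow, pow_succ]
        field_simp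
        norm_num

end Pool.Agent.MP_9808b6_an.Lin
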